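import Mathlib
import Pool.Agent.TH349.SelfConverse

/-!
# MP_b5e4d4_co: an explicit formula for the number of labeled self-converse digraphs

`s p` is the number of labeled self-converse digraphs with point set `Fin p`.  For a tuple
`σ` of permutations of the points, `cls σ` is the number of classes of ordered pairs of distinct
points under the equivalence relation generated by `(u, v) ~ (σ i v, σ i u)`, `i` an index of the
tuple.  The formula is a finite sum over the nonempty sets `A` of divisors of `p!` and the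
`|A|`-tuples `σ` of permutations, with summand `(-1)^(|A|+1) / (∏ d ∈ A, d) * 2 ^ cls σ`.
-/

set_option autoImplicit false

open Finset

namespace Pool.Agent.Results.MP_b5e4d4_co.TupleFormula

open Pool.Agent.TH349.SelfConverse

/-- labeled digraphs of order `p`: no loops, no multiple arcs -/
def LDigraph (p : ℕ) : Type := {R : Fin p → Fin p → Prop // ∀ i, ¬ R i i}

/-- the converse of a digraph -/
def LDigraph.converse {p : ℕ} (D : LDigraph p) : LDigraph p := ⟨fun i j => D.1 j i, D.2⟩

/-- isomorphism of digraphs -/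
def LDigraph.Iso {p : ℕ} (D D' : LDigraph p) : Prop :=
  ∃ σ : Equiv.Perm (Fin p), ∀ u v, D.1 u v ↔ D'.1 (σ u) (σ v)

/-- the number of labeled self-converse digraphs of order `p` -/
noncomputable def s (p : ℕ) : ℕ := Nat.card {D : LDigraph p // D.Iso D.converse}

/-- ordered pairs of distinct points -/
abbrev Pairs (p : ℕ) : Type := {e : Fin p × Fin p // e.1 ≠ e.2}

/-- two ordered pairs are linked if one is obtained from the other by reversing it and applying one
of the permutations `σ i` -/
def Linked {p k : ℕ} (σ : Fin k → Equiv.Perm (Fin p)) (e e' : Pairs p) : Prop :=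
  ∃ i, e'.1 = (σ i e.1.2, σ i e.1.1)

/-- the number of classes of the equivalence relation generated by `Linked σ` -/
noncomputable def cls {p k : ℕ} (σ : Fin k → Equiv.Perm (Fin p)) : ℕ :=
  Nat.card (Quot (Linked σ))

instance (p : ℕ) : MulAction (Equiv.Perm (Fin p)) (Pairs p) where
  smul σ e := ⟨(σ e.1.1, σ e.1.2), fun h => e.2 (σ.injective h)⟩
  one_smul := by
    rintro ⟨e, he⟩
    rfl
  mul_smul := by
    rintro σ τ ⟨e, he⟩
    rfl

/-- reversal of ordered pairs -/
def rev (p : ℕ) : Pairs p ≃ Pairs p where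
  toFun e := ⟨(e.1.2, e.1.1), fun h => e.2 h.symm⟩
  invFun e := ⟨(e.1.2, e.1.1), fun h => e.2 h.symm⟩
  left_inv := fun _ => rfl
  right_inv := fun _ => rfl

theorem linked_eq {p k : ℕ} (σ : Fin k → Equiv.Perm (Fin p)) :
    Linked σ = Step (rev p) σ := by
  funext e e'
  apply propext
  constructor
  · rintro ⟨i, h⟩
    exact ⟨i, Subtype.ext h⟩
  · rintro ⟨i, h⟩
    exact ⟨i, congrArg Subtype.val h⟩

open Classical in
/-- a digraph as a two-colouring of the ordered pairs -/
noncomputable def eD (p : ℕ) : LDigraph p ≃ (Pairs p → Bool) where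
  toFun := fun D e => decide (D.1 e.1.1 e.1.2)
  invFun := fun c => ⟨fun i j => ∃ h : i ≠ j, c ⟨(i, j), h⟩ = true, fun i h => h.1 rfl⟩
  left_inv := by
    intro D
    apply Subtype.ext
    funext i j
    apply propext
    constructor
    · rintro ⟨h, hc⟩
      simpa using hc
    · intro h
      exact ⟨fun hij => D.2 i (by rw [← hij] at h; exact h), by simpa using h⟩
  right_inv := by
    intro c
    funext e
    obtain ⟨⟨a, b⟩, he⟩ := e
    rcases hc : c ⟨(a, b), he⟩ with _ | _
    · simp [hc]
    · have : a ≠ b := he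
      simp [hc, this]

theorem s_card (p : ℕ) :
    s p = Nat.card {c : Pairs p → Bool //
      ∃ g : Equiv.Perm (Fin p), ∀ e, c (g • rev p e) = c e} := by
  classical
  unfold s
  refine Nat.card_congr (Equiv.subtypeEquiv (eD p) ?_)
  intro D
  have key : ∀ (g : Equiv.Perm (Fin p)) (a b : Fin p) (hab : a ≠ b),
      (eD p D (g • rev p (⟨(a, b), hab⟩ : Pairs p)) = eD p D ⟨(a, b), hab⟩) ↔
        (D.1 a b ↔ D.1 (g b) (g a)) := by
    intro g a b hab
    have h1 : eD p D (g • rev p (⟨(a, b), hab⟩ : Pairs p)) = decide (D.1 (g b) (g a)) := rfl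
    have h2 : eD p D ⟨(a, b), hab⟩ = decide (D.1 a b) := rfl
    rw [h1, h2]
    by_cases h3 : D.1 (g b) (g a) <;> by_cases h4 : D.1 a b <;> simp [h3, h4]
  constructor
  · rintro ⟨g, hg⟩
    refine ⟨g, ?_⟩
    rintro ⟨⟨a, b⟩, hab⟩
    rw [key g a b hab]
    exact hg a b
  · rintro ⟨g, hg⟩
    refine ⟨g, ?_⟩
    intro a b
    by_cases hab : a = b
    · subst hab
      constructor
      · intro h; exact absurd h (D.2 a)
      · intro h; exact absurd h (D.2 (g a))
    · exact (key g a b hab).mp (hg _)

/-- **Explicit formula** for the number of labeled self-converse digraphs of order `p`, for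
every `p`. -/
theorem result (p : ℕ) :
    (s p : ℚ) = ∑ A ∈ (p.factorial).divisors.powerset.erase ∅,
      ((-1) ^ (A.card + 1) / ∏ d ∈ A, (d : ℚ)) *
        ∑ σ : Fin A.card → Equiv.Perm (Fin p), (2 : ℚ) ^ cls σ := by
  classical
  rw [s_card, main (E := Pairs p) (G := Equiv.Perm (Fin p)) (rev p) (fun g e => rfl)]
  rw [Nat.card_eq_fintype_card, Fintype.card_perm, Fintype.card_fin]
  apply Finset.sum_congr rfl
  intro A _
  congr 1
  apply Finset.sum_congr rfl
  intro σ _
  rw [cls, linked_eq]

end Pool.Agent.Results.MP_b5e4d4_co.TupleFormula
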